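import Pool.Agent.W941.RP.Stm

/-!
RP-DIAG: the permanent of the test matrix.
-/

namespace Pool.Agent.W337.RP

open MvPolynomial Pool.Agent.W941.RP

set_option autoImplicit false

/-- the entry of the test matrix at these positions is nonzero -/
def Ok {k m r : ℕ} (x : Fin (k + 1) → (Fin m → Bool)) :
    (Fin (k + 1) × Fin m) ⊕ Fin r → (Fin (k + 1) × Fin m) ⊕ Fin r → Prop
  | .inl (j, _), .inl (a, g) => a = j + (if x j g then 1 else 0)
  | .inr b, .inr b' => b = b'
  | _, _ => False

/-- the nonzero entries of the row -/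
noncomputable def vl {k m r : ℕ} (ω : ℂ) :
    (Fin (k + 1) × Fin m) ⊕ Fin r → MvPolynomial (Fin (k + 1)) ℂ
  | .inl (j, l) => C (ω ^ (l : ℕ)) * X j
  | .inr _ => 1

open Classical in
lemma tm_eq {k m r n : ℕ} (e : Fin n ≃ (Fin (k + 1) × Fin m) ⊕ Fin r) (ω : ℂ)
    (x : Fin (k + 1) → (Fin m → Bool)) (i c : Fin n) :
    tm e ω x i c = if Ok x (e i) (e c) then vl ω (e i) else 0 := by
  unfold tm
  rcases e i with ⟨j, l⟩ | b <;> rcases e c with ⟨a, g⟩ | b'
  · by_cases h : a = j + (if x j g then 1 else 0)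
    · rw [if_pos (show Ok x (Sum.inl (j, l) : (Fin (k + 1) × Fin m) ⊕ Fin r) (.inl (a, g)) from h)]
      exact if_pos h
    · rw [if_neg (show ¬ Ok x (Sum.inl (j, l) : (Fin (k + 1) × Fin m) ⊕ Fin r) (.inl (a, g)) from h)]
      exact if_neg h
  · rw [if_neg (show ¬ Ok x (Sum.inl (j, l) : (Fin (k + 1) × Fin m) ⊕ Fin r) (.inr b')
      from id)]
  · rw [if_neg (show ¬ Ok x (Sum.inr b : (Fin (k + 1) × Fin m) ⊕ Fin r) (.inl (a, g)) from id)]
  · by_cases h : b = b'
    · rw [if_pos (show Ok x (Sum.inr b : (Fin (k + 1) × Fin m) ⊕ Fin r) (.inr b') from h)]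
      exact if_pos h
    · rw [if_neg (show ¬ Ok x (Sum.inr b : (Fin (k + 1) × Fin m) ⊕ Fin r) (.inr b') from h)]
      exact if_neg h

lemma prod_vl {k m r n : ℕ} (e : Fin n ≃ (Fin (k + 1) × Fin m) ⊕ Fin r) (ω : ℂ) :
    ∏ i, vl ω (e i) = C (∏ p : Fin (k + 1) × Fin m, ω ^ (p.2 : ℕ)) *
      monomial (mon m Finset.univ) 1 := by
  rw [Equiv.prod_comp e (vl ω), Fintype.prod_sum_type]
  have h1 : ∏ b : Fin r, vl (k := k) (m := m) ω (Sum.inr b) = 1 :=
    Finset.prod_eq_one fun b _ => rfl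
  rw [h1, mul_one]
  have h2 : ∀ p : Fin (k + 1) × Fin m, vl (r := r) ω (Sum.inl p) = C (ω ^ (p.2 : ℕ)) * X p.1 :=
    fun p => rfl
  rw [Finset.prod_congr rfl fun p _ => h2 p, Finset.prod_mul_distrib, map_prod]
  congr 1
  unfold mon
  rw [monomial_sum_one, Fintype.prod_prod_type]
  refine Finset.prod_congr rfl fun j _ => ?_
  show ∏ _y : Fin m, (X j : MvPolynomial (Fin (k + 1)) ℂ) = _
  rw [Finset.prod_const, Finset.card_univ, Fintype.card_fin, X_pow_eq_monomial]

lemma aeval_perm {k m r n : ℕ} (e : Fin n ≃ (Fin (k + 1) × Fin m) ⊕ Fin r) (ω : ℂ)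
    (x : Fin (k + 1) → (Fin m → Bool)) :
    aeval (fun p => tm e ω x p.1 p.2) (perm n) =
      ∑ σ : Equiv.Perm (Fin n), ∏ i, tm e ω x i (σ i) := by
  unfold perm
  rw [← Matrix.permanent_transpose, Matrix.permanent]
  rw [map_sum]
  refine Finset.sum_congr rfl fun σ _ => ?_
  rw [map_prod]
  refine Finset.prod_congr rfl fun i _ => ?_
  simp [Matrix.transpose]

open Classical in
lemma coeff_eq {k m r n : ℕ} (e : Fin n ≃ (Fin (k + 1) × Fin m) ⊕ Fin r) (ω : ℂ)
    (x : Fin (k + 1) → (Fin m → Bool)) :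
    coeff (mon m Finset.univ) (aeval (fun p => tm e ω x p.1 p.2) (perm n)) =
      ((Finset.univ.filter fun σ : Equiv.Perm (Fin n) => ∀ i, Ok x (e i) (e (σ i))).card : ℂ) *
        ∏ p : Fin (k + 1) × Fin m, ω ^ (p.2 : ℕ) := by
  rw [aeval_perm, coeff_sum]
  have h1 : ∀ σ : Equiv.Perm (Fin n), coeff (mon m Finset.univ) (∏ i, tm e ω x i (σ i)) =
      if ∀ i, Ok x (e i) (e (σ i)) then ∏ p : Fin (k + 1) × Fin m, ω ^ (p.2 : ℕ) else 0 := by
    intro σ
    rw [Finset.prod_congr rfl fun i _ => tm_eq e ω x i (σ i)]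
    by_cases h : ∀ i, Ok x (e i) (e (σ i))
    · rw [if_pos h, Finset.prod_congr rfl fun i _ => if_pos (h i), prod_vl, coeff_C_mul,
        coeff_monomial, if_pos rfl, mul_one]
    · rw [if_neg h]
      push Not at h
      obtain ⟨i, hi⟩ := h
      rw [Finset.prod_eq_zero (Finset.mem_univ i) (if_neg hi), coeff_zero]
  rw [Finset.sum_congr rfl fun σ _ => h1 σ, ← Finset.sum_filter, Finset.sum_const, nsmul_eq_mul]

lemma exists_iff {k m r : ℕ} (hk : 1 ≤ k) (x : Fin (k + 1) → (Fin m → Bool)) :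
    (∃ τ : Equiv.Perm ((Fin (k + 1) × Fin m) ⊕ Fin r), ∀ z, Ok x z (τ z)) ↔
      ∀ i j, x i = x j := by
  constructor
  · rintro ⟨τ, hτ⟩
    have hstep : ∀ (g : Fin m) (j : Fin (k + 1)), x j g = true → x (j + 1) g = true := by
      intro g j hj
      have hsurj : Function.Surjective fun j : Fin (k + 1) =>
          j + (if x j g then (1 : Fin (k + 1)) else 0) := by
        intro a
        obtain ⟨z, hz⟩ := τ.surjective (Sum.inl (a, g))
        have h1 := hτ z
        rw [hz] at h1
        rcases z with ⟨j, l⟩ | b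
        · exact ⟨j, h1.symm⟩
        · exact h1.elim
      have hinj := Finite.injective_iff_surjective.2 hsurj
      by_contra hcon
      rw [Bool.not_eq_true] at hcon
      have h2 : j = j + 1 := by
        apply hinj
        show j + (if x j g then (1 : Fin (k + 1)) else 0) =
          (j + 1) + (if x (j + 1) g then (1 : Fin (k + 1)) else 0)
        rw [hj, hcon]
        simp
      have h3 : (1 : Fin (k + 1)) = 0 := by
        have h4 := h2.symm
        rwa [add_eq_left] at h4
      have h5 := congrArg Fin.val h3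
      rw [Fin.val_one', Fin.val_zero] at h5
      rw [Nat.mod_eq_of_lt (by omega)] at h5
      exact one_ne_zero h5
    have hall : ∀ (g : Fin m) (i : Fin (k + 1)), x i g = true → ∀ (t : ℕ) (j : Fin (k + 1)),
        j.val = (i.val + t) % (k + 1) → x j g = true := by
      intro g i hi t
      induction t with
      | zero =>
        intro j hj
        have h1 : j = i := by
          apply Fin.ext
          rw [hj, Nat.add_zero, Nat.mod_eq_of_lt i.isLt]
        rw [h1]; exact hi
      | succ t ih =>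
        intro j hj
        have h1 := hstep g _ (ih ⟨(i.val + t) % (k + 1), Nat.mod_lt _ (Nat.succ_pos k)⟩ rfl)
        have h2 : j = ⟨(i.val + t) % (k + 1), Nat.mod_lt _ (Nat.succ_pos k)⟩ + 1 := by
          apply Fin.ext
          rw [hj, Fin.val_add, Fin.val_one', ← Nat.add_mod, add_assoc]
        rw [h2]; exact h1
    have himp : ∀ (g : Fin m) (i j : Fin (k + 1)), x i g = true → x j g = true := by
      intro g i j hi
      refine hall g i hi (j.val + (k + 1) - i.val) j ?_
      have h1 := i.isLt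
      have h2 : i.val + (j.val + (k + 1) - i.val) = j.val + (k + 1) := by omega
      rw [h2, Nat.add_mod_right, Nat.mod_eq_of_lt j.isLt]
    intro i j
    funext g
    rw [Bool.eq_iff_iff]
    exact ⟨himp g i j, himp g j i⟩
  · intro h
    let c : Fin m → Fin (k + 1) := fun l => if x 0 l then 1 else 0
    let τ₀ : Equiv.Perm (Fin (k + 1) × Fin m) :=
      { toFun := fun p => (p.1 + c p.2, p.2)
        invFun := fun p => (p.1 - c p.2, p.2)
        left_inv := fun p => by simp
        right_inv := fun p => by simp }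
    refine ⟨Equiv.sumCongr τ₀ (Equiv.refl _), ?_⟩
    rintro (⟨j, l⟩ | b)
    · show j + c l = j + (if x j l then 1 else 0)
      rw [h j 0]
    · rfl

theorem diag : DiagStmt := by
  classical
  intro k m r n e ω hk hω x
  rw [coeff_eq, ← exists_iff (r := r) hk x]
  have hW : (∏ p : Fin (k + 1) × Fin m, ω ^ (p.2 : ℕ)) ≠ 0 :=
    Finset.prod_ne_zero_iff.2 fun p _ => pow_ne_zero _ hω
  rw [mul_ne_zero_iff, and_iff_left hW, Nat.cast_ne_zero, Finset.card_ne_zero]
  constructor
  · rintro ⟨σ, hσ⟩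
    rw [Finset.mem_filter] at hσ
    refine ⟨e.symm.trans (σ.trans e), fun z => ?_⟩
    have h1 := hσ.2 (e.symm z)
    rw [Equiv.apply_symm_apply] at h1
    exact h1
  · rintro ⟨τ, hτ⟩
    refine ⟨e.trans (τ.trans e.symm), ?_⟩
    rw [Finset.mem_filter]
    refine ⟨Finset.mem_univ _, fun i => ?_⟩
    have h1 := hτ (e i)
    simpa using h1

end Pool.Agent.W337.RP
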